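import Pool.Agent.H752.NX.Stubs
import Pool.Agent.H620R2.GaugeX.X1
import Pool.Agent.H620R2.Gauge.C

/-!
# Task X4: the modification
-/

namespace Pool.Agent.H752.NX

open Pool.Agent.NPC Pool.Agent.H620R2.Gauge Pool.Agent.H752.GE Finset

theorem pairBits_injX {w w' x x' : List Bool} (h : pairBits w x = pairBits w' x') :
    w = w' ∧ x = x' := by
  have h1 := congrArg unpair h
  rw [unpair_pairBits, unpair_pairBits] at h1
  exact ⟨congrArg Prod.fst h1, congrArg Prod.snd h1⟩

theorem eval_monoX (p : Polynomial ℕ) {a b : ℕ} (h : a ≤ b) : p.eval a ≤ p.eval b := by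
  rw [Polynomial.eval_eq_sum, Polynomial.eval_eq_sum]
  exact Finset.sum_le_sum fun i _ => Nat.mul_le_mul_left _ (Nat.pow_le_pow_left h i)

/-- finitely many strings determine the run -/
theorem run_fin (M : Alg) (x : List Bool) (n : ℕ) (a : List Bool) :
    ∃ U : Finset (List Bool), ∀ A A' : Oracle, (∀ u ∈ U, A u = A' u) →
      M.run A x n a = M.run A' x n a := by
  classical
  induction n generalizing a with
  | zero => exact ⟨∅, fun A A' _ => rfl⟩
  | succ n ih =>
    rcases hq : M.D (pairBits x a) with _ | ⟨c, q⟩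
    · exact ⟨∅, fun A A' _ => by simp only [Alg.run, hq]⟩
    · cases c with
      | true => exact ⟨∅, fun A A' _ => by simp only [Alg.run, hq]⟩
      | false =>
        obtain ⟨Q1, h1⟩ := ih (a ++ [true])
        obtain ⟨Q2, h2⟩ := ih (a ++ [false])
        refine ⟨insert q (Q1 ∪ Q2), ?_⟩
        intro A A' hA
        simp only [Alg.run, hq]
        rw [hA q (Finset.mem_insert_self _ _)]
        cases A' q with
        | true =>
          exact h1 A A' fun r hr => hA r (Finset.mem_insert_of_mem (Finset.mem_union_left _ hr))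
        | false =>
          exact h2 A A' fun r hr => hA r (Finset.mem_insert_of_mem (Finset.mem_union_right _ hr))

theorem accX_fin (g : ℕ → Alg × Polynomial ℕ) (i : ℕ × List Bool) :
    ∃ F : Finset (List Bool), ∀ A A' : Oracle, (∀ u ∈ F, A u = A' u) →
      (AccX g i A ↔ AccX g i A') := by
  classical
  obtain ⟨W, _, hW⟩ := exists_short (2 ^ (g i.1).2.eval i.2.length)
  choose U hU using fun w : List Bool => run_fin (g i.1).1 (pairBits w i.2)
    ((g i.1).1.p.eval (pairBits w i.2).length) []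
  refine ⟨W.biUnion U, ?_⟩
  intro A A' hA
  have h1 : ∀ w : List Bool, w.length ≤ 2 ^ (g i.1).2.eval i.2.length →
      (g i.1).1.out A (pairBits w i.2) = (g i.1).1.out A' (pairBits w i.2) := by
    intro w hw
    exact hU w A A' fun u hu => hA u (Finset.mem_biUnion.2 ⟨w, hW w hw, hu⟩)
  constructor
  · rintro ⟨w, hw, h⟩
    exact ⟨w, hw, (h1 w hw).symm.trans h⟩
  · rintro ⟨w, hw, h⟩
    exact ⟨w, hw, (h1 w hw).trans h⟩

theorem accX_cert (g : ℕ → Alg × Polynomial ℕ) (S : ℕ → Polynomial ℕ)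
    (hS : ∀ e n, (g e).1.p.eval (2 * 2 ^ (g e).2.eval n + 1 + n) ≤ 2 ^ (S e).eval n)
    (i : ℕ × List Bool) (A : Oracle) (hA : AccX g i A) :
    ∃ C : Finset (List Bool), C.card ≤ 2 ^ (S i.1).eval i.2.length ∧
      ∀ A' : Oracle, (∀ u ∈ C, A' u = A u) → AccX g i A' := by
  obtain ⟨w, hw, h⟩ := hA
  obtain ⟨U, hU1, hU2⟩ := run_local (g i.1).1 A (pairBits w i.2)
    ((g i.1).1.p.eval (pairBits w i.2).length) []
  refine ⟨U, hU1.trans (le_trans (eval_monoX _ ?_) (hS i.1 i.2.length)), ?_⟩
  · rw [length_pairBits]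
    have hw' : w.length ≤ 2 ^ (g i.1).2.eval i.2.length := hw
    omega
  · intro A' hA'
    refine ⟨w, hw, ?_⟩
    have h2 : (g i.1).1.out A' (pairBits w i.2) = (g i.1).1.out A (pairBits w i.2) := hU2 A' hA'
    exact h2.trans h

theorem few_small (S : ℕ → Polynomial ℕ) (hS : ∀ e n, n + e + 2 ≤ (S e).eval n) (s : ℕ)
    (T : Finset (ℕ × List Bool)) (hT : ∀ i ∈ T, (S i.1).eval i.2.length ≤ s) :
    T.card ≤ 2 ^ (2 * s) := by
  classical
  rcases Nat.lt_or_ge s 2 with hs | hs
  · have h : T = ∅ := by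
      rw [Finset.eq_empty_iff_forall_notMem]
      intro i hi
      have h1 := hT i hi
      have h2 := hS i.1 i.2.length
      omega
    rw [h]
    simp
  · obtain ⟨U, hU1, hU2⟩ := exists_short (s - 2)
    have h1 : T ⊆ Finset.range s ×ˢ U := by
      intro i hi
      have h1 := hT i hi
      have h2 := hS i.1 i.2.length
      rw [Finset.mem_product]
      exact ⟨Finset.mem_range.2 (by omega), hU2 _ (by omega)⟩
    calc T.card ≤ (Finset.range s ×ˢ U).card := Finset.card_le_card h1
      _ = s * U.card := by rw [Finset.card_product, Finset.card_range]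
      _ ≤ 2 ^ s * 2 ^ s := by
        refine Nat.mul_le_mul (Nat.lt_two_pow_self).le (hU1.trans ?_)
        exact Nat.pow_le_pow_right (by norm_num) (by omega)
      _ = 2 ^ (2 * s) := by rw [← pow_add]; congr 1; ring

/-- X4 -/
theorem t_phi (h1 : St_fin) (h2 : St_cpt) (h3 : St_data) : St_phi := by
  obtain ⟨g, S, hg, hS1, hS2⟩ := h3
  refine ⟨g, S, hg, ?_⟩
  intro R
  have hpos : ∀ (i : ℕ × List Bool) (y z : List Bool) (i' : ℕ × List Bool) (y' z' : List Bool),
      posX R i y z = posX R i' y' z' → i = i' ∧ y = y' ∧ z = z' := by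
    intro i y z i' y' z' h
    obtain ⟨h4, h5⟩ := CC.code_inj R h
    obtain ⟨h6, h7⟩ := pairBits_injX h5
    obtain ⟨h8, h9⟩ := pairBits_injX h7
    exact ⟨Prod.ext h4 h6, h8, h9⟩
  have key : ∀ B : Oracle, ∃ A : Oracle, (∀ u, (∀ i y z, u ≠ posX R i y z) → A u = B u) ∧
      ∀ i, Req (lX S) (rX S) (posX R) (AccX g) i A := by
    intro B
    refine h2 (ℕ × List Bool) (lX S) (rX S) (posX R) (AccX g) (accX_fin g) B ?_
    intro T
    exact h1 (ℕ × List Bool) (fun i => (S i.1).eval i.2.length)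
      (fun i => by have := hS1 i.1 i.2.length; show 2 ≤ (S i.1).eval i.2.length; omega)
      (fun s T' hT' => few_small S hS1 s T' hT') (posX R) hpos (AccX g)
      (fun i A hA => accX_cert g S hS2 i A hA) T B
  choose Φ hΦ using key
  refine ⟨Φ, ?_, fun B => (hΦ B).2⟩
  intro B u hu
  exact (hΦ B).1 u fun i y z => hu i.1 _

end Pool.Agent.H752.NX
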